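import Pool.Agent.Y305.WN.Orth

/-! From an isomorphic copy of `c₀` in a dual space to bad bounded sets. -/

set_option autoImplicit false

open Filter Topology Set
open scoped ENNReal NNReal ComplexConjugate
open Pool.Agent.H86R3 Pool.Agent.H86R3.Wnc Pool.Agent.H86R3.JB

namespace Pool.Agent.Y305.WN

universe u

/-- no constant bounds the De Blasi measure by `wk` or by `wck` -/
def Bad (X : Type u) [NormedAddCommGroup X] [NormedSpace ℂ X] : Prop :=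
  ∀ c : ℝ≥0, ∃ A : Set X, A.Nonempty ∧ Bornology.IsBounded A ∧
    (c : ℝ≥0∞) * wk A < deBlasi A ∧ (c : ℝ≥0∞) * wck A < deBlasi A

theorem bad_of_copy (hTR : S_TR.{u}) (hINJ : S_INJ.{u}) (X : Type u) [NormedAddCommGroup X]
    [NormedSpace ℂ X] (T : C(StoneCech ℕ, ℂ) →L[ℂ] X) (C : ℝ) (hT : ∀ g, ‖g‖ ≤ C * ‖T g‖) :
    Bad X := by
  intro c
  obtain ⟨P, hP⟩ := hINJ X T C hT
  obtain ⟨ψ, hψ⟩ := exists_surj
  obtain ⟨A, hA1, hA2, hA3, -⟩ := exists_bad (StoneCech ℕ) ψ hψ (‖P‖₊ * (c * ‖T‖₊))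
  obtain ⟨h1, h2⟩ := hTR C(StoneCech ℕ, ℂ) X T P hP A hA2
  have hb : Bornology.IsBounded (T '' A) := T.lipschitz.isBounded_image hA2
  have h3 : (c : ℝ≥0∞) * wk (T '' A) < deBlasi (T '' A) := by
    have h4 : (‖P‖₊ : ℝ≥0∞) * ((c : ℝ≥0∞) * wk (T '' A)) < (‖P‖₊ : ℝ≥0∞) * deBlasi (T '' A) := by
      refine lt_of_le_of_lt ?_ (hA3.trans_le h2)
      push_cast
      rw [mul_assoc, mul_assoc]
      gcongr
    exact lt_of_mul_lt_mul_left' h4
  refine ⟨T '' A, hA1.image _, hb, h3, ?_⟩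
  exact (mul_le_mul_right (wck_le_wk hb) _).trans_lt h3

theorem bad_of_seq (hTR : S_TR.{u}) (hINJ : S_INJ.{u}) (hSEQ : S_SEQ.{u})
    (X : Type u) [NormedAddCommGroup X] [NormedSpace ℂ X] (Y : Type u) [NormedAddCommGroup Y]
    [NormedSpace ℂ Y] (e : X ≃L[ℂ] StrongDual ℂ Y) (f : ℕ → X) (hf : ∀ i, 1 ≤ ‖f i‖)
    (hF : ∀ (F : Finset ℕ) (a : ℕ → ℂ), (∀ i, ‖a i‖ ≤ 1) → ‖∑ i ∈ F, a i • f i‖ ≤ 1) :
    Bad X := by
  set m : ℝ := ‖(e : X →L[ℂ] StrongDual ℂ Y)‖ + 1 with hm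
  set k : ℝ := ‖(e.symm : StrongDual ℂ Y →L[ℂ] X)‖ + 1 with hk
  have hm0 : 0 < m := by positivity
  have hk0 : 0 < k := by positivity
  have he : ∀ x, ‖e x‖ ≤ m * ‖x‖ := fun x =>
    ((e : X →L[ℂ] StrongDual ℂ Y).le_opNorm x).trans
      (mul_le_mul_of_nonneg_right (by linarith) (norm_nonneg _))
  have he' : ∀ x, ‖x‖ ≤ k * ‖e x‖ := fun x => by
    have := (e.symm : StrongDual ℂ Y →L[ℂ] X).le_opNorm (e x)
    rw [ContinuousLinearEquiv.coe_coe, e.symm_apply_apply] at this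
    exact this.trans (mul_le_mul_of_nonneg_right (by linarith) (norm_nonneg _))
  have hmc : ‖((m : ℂ))⁻¹‖ = m⁻¹ := by
    rw [norm_inv, Complex.norm_real, Real.norm_eq_abs, abs_of_pos hm0]
  obtain ⟨T, hT⟩ := hSEQ Y (fun i => ((m : ℂ))⁻¹ • e (f i)) (1 / (2 * m * k)) (by positivity)
    (fun i => by
      rw [norm_smul, hmc]
      have h1 : 1 ≤ k * ‖e (f i)‖ := (hf i).trans (he' _)
      have h2 : 1 / k ≤ ‖e (f i)‖ := by
        rw [div_le_iff₀ hk0]; linarith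
      calc 1 / (2 * m * k) < m⁻¹ * (1 / k) := by
            have e1 : m⁻¹ * (1 / k) = 1 / (m * k) := by field_simp
            rw [e1]
            apply one_div_lt_one_div_of_lt (by positivity)
            nlinarith [mul_pos hm0 hk0]
        _ ≤ m⁻¹ * ‖e (f i)‖ := by gcongr)
    (fun F a ha => by
      have h1 : ∑ i ∈ F, a i • ((m : ℂ))⁻¹ • e (f i) = ((m : ℂ))⁻¹ • e (∑ i ∈ F, a i • f i) := by
        rw [map_sum, Finset.smul_sum]
        refine Finset.sum_congr rfl fun i _ => ?_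
        rw [map_smul, smul_comm]
      rw [h1, norm_smul, hmc]
      calc m⁻¹ * ‖e (∑ i ∈ F, a i • f i)‖ ≤ m⁻¹ * (m * 1) := by
            gcongr
            exact (he _).trans (by gcongr; exact hF F a ha)
        _ = 1 := by field_simp)
  refine bad_of_copy hTR hINJ X ((e.symm : StrongDual ℂ Y →L[ℂ] X).comp T) (4 * m * k * m)
    fun g => ?_
  have h1 := hT g
  have h2 := he (e.symm (T g))
  rw [e.apply_symm_apply] at h2
  change ‖g‖ ≤ 4 * m * k * m * ‖e.symm (T g)‖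
  have h3 : 1 / (2 * m * k) / 2 * ‖g‖ ≤ m * ‖e.symm (T g)‖ := h1.trans h2
  have h4 : ‖g‖ = (4 * m * k) * (1 / (2 * m * k) / 2 * ‖g‖) := by field_simp; ring
  rw [h4]
  calc (4 * m * k) * (1 / (2 * m * k) / 2 * ‖g‖) ≤ (4 * m * k) * (m * ‖e.symm (T g)‖) := by
        gcongr
    _ = 4 * m * k * m * ‖e.symm (T g)‖ := by ring

/-- a JBW*-triple with an infinite sequence of orthogonal elements -/
theorem bad_triple (hTR : S_TR.{u}) (hINJ : S_INJ.{u}) (hSEQ : S_SEQ.{u})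
    (M : Type u) [NormedAddCommGroup M] [NormedSpace ℂ M] (L : M → M → M →L[ℂ] M)
    (hL : IsJBWTriple M L) (f : ℕ → M) (hf : ∀ i, f i ≠ 0)
    (o : ∀ i j, i ≠ j → L (f i) (f j) = 0) : Bad M := by
  obtain ⟨hT, P, i1, i2, i3, ⟨e⟩⟩ := hL
  set g : ℕ → M := fun i => ((‖f i‖ : ℂ))⁻¹ • f i with hg
  have hgn : ∀ i, ‖g i‖ = 1 := fun i => by
    rw [hg]
    simp only [norm_smul, norm_inv, Complex.norm_real, norm_norm]
    exact inv_mul_cancel₀ (norm_ne_zero_iff.2 (hf i))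
  refine bad_of_seq hTR hINJ hSEQ M P e.toContinuousLinearEquiv g (fun i => (hgn i).ge)
    fun F a ha => ?_
  refine orth M L hT (fun i => a i • g i) ?_ F 1 zero_le_one fun i _ => ?_
  · intro i j hij
    ext v
    rw [hT.smul_left, hT.smul_mid, hg]
    simp only [hT.smul_left, hT.smul_mid, o i j hij]
    simp
  · rw [norm_smul, hgn, mul_one]
    exact ha i

end Pool.Agent.Y305.WN
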