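import Pool.Agent.Y305.WN.Bad
import Pool.Agent.Helper133.CD.J4a
import Pool.Agent.Helper133.CD.J4b
import Pool.Agent.Helper133.CD.J4c
import Pool.Agent.Helper133.CD.J5

/-! C*-algebras, `C(βℕ)`, finite-dimensional spaces. -/

set_option autoImplicit false

open Filter Topology Set
open scoped ENNReal NNReal ComplexConjugate
open Pool.Agent.H86R3 Pool.Agent.H86R3.Wnc Pool.Agent.H86R3.JB

namespace Pool.Agent.Y305.WN

universe u

/-- infinite dimensional C*-algebras contain orthogonal sequences -/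
theorem exists_orth (A : Type u) [NonUnitalCStarAlgebra A] (h : ¬ FiniteDimensional ℂ A) :
    ∃ a b : ℕ → A, (∀ n, IsSelfAdjoint (a n)) ∧ (∀ n, ‖a n‖ ≤ 1) ∧ (∀ n, b n ≠ 0) ∧
      (∀ n, a n * b n = b n) ∧ ∀ m n, m ≠ n → a m * a n = 0 := by
  by_cases h1 : ∃ x : A, IsSelfAdjoint x ∧ (quasispectrum ℝ x).Infinite
  · obtain ⟨x, hx, hs⟩ := h1
    exact Helper133.CD.J4a.exists_orth_of_infinite_spectrum A x hx hs
  · push Not at h1
    have h2 : ∀ x : A, IsSelfAdjoint x →
        x ∈ Submodule.span ℂ {q : A | IsSelfAdjoint q ∧ q * q = q ∧ ∃ y, q = x * y ∧ q = y * x} :=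
      fun x hx => Helper133.CD.J4b.mem_span_of_finite_spectrum A x hx (h1 x hx)
    by_contra h3
    refine h (Helper133.CD.J4c.finiteDimensional_of_no_orth A h2 ?_)
    rintro ⟨p, hp1, hp2, hp3, hp4⟩
    refine h3 ⟨p, p, hp1, fun n => ?_, hp3, hp2, hp4⟩
    have h4 : ‖p n‖ = ‖p n‖ * ‖p n‖ := by
      have := CStarRing.norm_star_mul_self (x := p n)
      rwa [(hp1 n).star_eq, hp2 n] at this
    nlinarith [norm_nonneg (p n), norm_pos_iff.mpr (hp3 n)]

/-- infinite-dimensional C*-algebras which are dual Banach spaces -/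
theorem bad_cstar (hTR : S_TR.{u}) (hINJ : S_INJ.{u}) (hSEQ : S_SEQ.{u})
    (M : Type u) [NonUnitalCStarAlgebra M] (Y : Type u) [NormedAddCommGroup Y]
    [NormedSpace ℂ Y] (e : M ≃L[ℂ] StrongDual ℂ Y) (hM : ¬ FiniteDimensional ℂ M) : Bad M := by
  obtain ⟨a, b, ha1, ha2, hb, hab, ha3⟩ := exists_orth M hM
  refine bad_of_seq hTR hINJ hSEQ M Y e a (fun i => ?_) fun F c hc =>
    Helper133.CD.J5.norm_orth_sum_le M a ha1 ha2 ha3 F c fun n _ => hc n
  have h1 : ‖b i‖ ≤ ‖a i‖ * ‖b i‖ := by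
    conv_lhs => rw [← hab i]
    exact norm_mul_le _ _
  have h2 : 0 < ‖b i‖ := norm_pos_iff.2 (hb i)
  by_contra hlt
  rw [not_le] at hlt
  nlinarith

/-- in a finite-dimensional space the De Blasi measure of a bounded set is zero -/
theorem deBlasi_fin (X : Type u) [NormedAddCommGroup X] [NormedSpace ℂ X]
    [FiniteDimensional ℂ X] (A : Set X) (hA : Bornology.IsBounded A) (hne : A.Nonempty) :
    deBlasi A = 0 := by
  have : ProperSpace X := FiniteDimensional.proper ℂ X
  refine le_antisymm ?_ bot_le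
  refine iInf_le_of_le (closure A) (iInf_le_of_le hne.closure (iInf_le_of_le ?_ ?_))
  · have hc : IsCompact (closure A) := hA.isCompact_closure
    exact hc.image (toWeakSpaceCLM ℂ X).continuous
  · rw [excess_le_iff]
    intro a ha
    rw [Metric.infEDist_zero_of_mem (subset_closure ha)]

/-- the coordinate sequence of `C(βℕ)` -/
theorem beta_orth : ∃ f : ℕ → C(StoneCech ℕ, ℂ), (∀ i, f i ≠ 0) ∧
    ∀ i j, i ≠ j → f i * star (f j) = 0 := by
  classical
  have h1 : ∀ i : ℕ, ∃ f : C(StoneCech ℕ, ℂ), ∀ n, val f n = if n = i then 1 else 0 := by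
    intro i
    obtain ⟨f, hf⟩ := pair_surjective (lp.evalCLM ℂ (fun _ : ℕ => ℂ) 1 i)
    refine ⟨f, fun n => ?_⟩
    rw [← pair_single f n]
    have : pair f (lp.single 1 n (1 : ℂ)) = lp.evalCLM ℂ (fun _ : ℕ => ℂ) 1 i (lp.single 1 n (1 : ℂ)) := by
      rw [← hf]; rfl
    rw [this]
    change (lp.single 1 n (1 : ℂ) : Ell) i = _
    split_ifs with h
    · subst h; simp
    · rw [lp.single_apply_ne _ _ _ (fun h' => h h'.symm)]
  choose f hf using h1
  refine ⟨f, fun i h0 => ?_, fun i j hij => ?_⟩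
  · have := hf i i
    rw [h0, if_pos rfl] at this
    exact one_ne_zero (this.symm.trans rfl)
  · have h2 : ∀ n, val (f i * star (f j)) n = 0 := by
      intro n
      have : val (f i * star (f j)) n = val (f i) n * (starRingEnd ℂ) (val (f j) n) := rfl
      rw [this, hf, hf]
      split_ifs with h3 h4
      · exact absurd (h3.symm.trans h4) hij
      all_goals simp
    apply ContinuousMap.ext
    have := Continuous.ext_on denseRange_stoneCechUnit (f i * star (f j)).continuous
      (continuous_const (y := (0 : ℂ))) (by rintro _ ⟨n, rfl⟩; exact h2 n)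
    exact fun x => congrFun this x

end Pool.Agent.Y305.WN
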