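import Pool.Agent.Y305.WN.Cases

/-! Finite-dimensional spaces: `wk` vanishes. -/

set_option autoImplicit false

open Filter Topology Set
open scoped ENNReal NNReal ComplexConjugate
open Pool.Agent.H86R3 Pool.Agent.H86R3.Wnc Pool.Agent.H86R3.JB

namespace Pool.Agent.Y305.WN

universe u

theorem wk_fin (X : Type u) [NormedAddCommGroup X] [NormedSpace ℂ X]
    [FiniteDimensional ℂ X] (A : Set X) (hA : Bornology.IsBounded A) : wk A = 0 := by
  have : ProperSpace X := FiniteDimensional.proper ℂ X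
  refine le_antisymm ?_ bot_le
  rw [wk, excess_le_iff]
  intro z hz
  have hc : IsCompact (closure A) := hA.isCompact_closure
  have hJ : Continuous (fun a : X => StrongDual.toWeakDual (canon X a)) := by
    refine WeakDual.continuous_of_continuous_eval fun φ => ?_
    exact φ.continuous
  have hcl := (hc.image hJ).isClosed
  have hz' : StrongDual.toWeakDual z ∈ (fun a : X => StrongDual.toWeakDual (canon X a)) '' closure A := by
    refine closure_minimal ?_ hcl hz
    exact image_mono subset_closure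
  obtain ⟨x, -, hx⟩ := hz'
  have hx' : canon X x = z := StrongDual.toWeakDual.injective hx
  have hm : z ∈ range (canon X) := ⟨x, hx'⟩
  rw [Metric.infEDist_zero_of_mem hm]

/-- the classification for C*-algebras which are dual Banach spaces -/
theorem cstar_iff (hTR : S_TR.{u}) (hINJ : S_INJ.{u}) (hSEQ : S_SEQ.{u})
    (M : Type u) [NonUnitalCStarAlgebra M] (Y : Type u) [NormedAddCommGroup Y]
    [NormedSpace ℂ Y] (e : M ≃L[ℂ] StrongDual ℂ Y) :
    ((∃ c : ℝ≥0, ∀ A : Set M, A.Nonempty → Bornology.IsBounded A →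
        deBlasi A ≤ (c : ℝ≥0∞) * wk A) ↔ FiniteDimensional ℂ M) ∧
    ((∀ A : Set M, A.Nonempty → Bornology.IsBounded A → deBlasi A = wk A ∧ wk A = wck A) ↔
      FiniteDimensional ℂ M) := by
  have h1 : (∃ c : ℝ≥0, ∀ A : Set M, A.Nonempty → Bornology.IsBounded A →
        deBlasi A ≤ (c : ℝ≥0∞) * wk A) → FiniteDimensional ℂ M := by
    rintro ⟨c, hc⟩
    by_contra hM
    obtain ⟨A, hA1, hA2, hA3, -⟩ := bad_cstar hTR hINJ hSEQ M Y e hM c
    exact absurd (hc A hA1 hA2) (not_le.2 hA3)
  refine ⟨⟨h1, fun h => ⟨0, fun A hne hA => ?_⟩⟩, ⟨fun h => h1 ⟨1, fun A hne hA => ?_⟩,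
    fun h A hne hA => ?_⟩⟩
  · rw [deBlasi_fin M A hA hne]; exact bot_le
  · rw [(h A hne hA).1, ENNReal.coe_one, one_mul]
  · have h2 := deBlasi_fin M A hA hne
    have h3 := wk_fin M A hA
    have h4 : wck A = 0 := le_antisymm ((wck_le_wk hA).trans h3.le) bot_le
    rw [h2, h3, h4]
    exact ⟨rfl, rfl⟩

end Pool.Agent.Y305.WN
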