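import Pool.Agent.Y305.WN.Stm

/-! Sums of orthogonal elements of a JB*-triple. -/

set_option autoImplicit false

open Filter Topology Set
open scoped ENNReal NNReal ComplexConjugate
open Pool.Agent.H86R3 Pool.Agent.H86R3.Wnc Pool.Agent.H86R3.JB

namespace Pool.Agent.Y305.WN

universe u

section

variable {M : Type u} [NormedAddCommGroup M] [NormedSpace ℂ M] {L : M → M → M →L[ℂ] M}

theorem L_zero_mid (h : IsJBTriple M L) (a : M) : L a 0 = 0 := by
  ext v
  have := h.smul_mid 0 a 0 v
  simpa using this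

theorem L_zero_left (h : IsJBTriple M L) (b : M) : L 0 b = 0 := by
  ext v
  have := h.smul_left 0 0 b v
  simpa using this

theorem L_sum_left (h : IsJBTriple M L) (F : Finset ℕ) (g : ℕ → M) (b v : M) :
    L (∑ i ∈ F, g i) b v = ∑ i ∈ F, L (g i) b v := by
  classical
  induction F using Finset.induction_on with
  | empty => simp [L_zero_left h]
  | insert a s ha ih => rw [Finset.sum_insert ha, Finset.sum_insert ha, h.add_left, ih]

theorem L_sum_mid (h : IsJBTriple M L) (F : Finset ℕ) (g : ℕ → M) (a v : M) :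
    L a (∑ i ∈ F, g i) v = ∑ i ∈ F, L a (g i) v := by
  classical
  induction F using Finset.induction_on with
  | empty => simp [L_zero_mid h]
  | insert b s hb ih => rw [Finset.sum_insert hb, Finset.sum_insert hb, h.add_mid, ih]

/-- the cube of an element orthogonal to `y` is orthogonal to `y` -/
theorem orth_cube (h : IsJBTriple M L) {x y : M} (o1 : L x y = 0) (o2 : L y x = 0) :
    L (L x x x) y = 0 ∧ L y (L x x x) = 0 := by
  have e0 : L x x y = 0 := by rw [h.symm x x y, o2]; rfl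
  constructor
  · have := h.jordan x x x y
    rw [e0, o1, L_zero_mid h] at this
    simpa using this.symm
  · have := h.jordan x x y x
    rw [e0, o2, L_zero_left h] at this
    simpa using this

/-- iterated cubes -/
def cb (L : M → M → M →L[ℂ] M) : ℕ → M → M
  | 0, x => x
  | n + 1, x => L (cb L n x) (cb L n x) (cb L n x)

theorem norm_cb (h : IsJBTriple M L) (n : ℕ) (x : M) : ‖cb L n x‖ = ‖x‖ ^ 3 ^ n := by
  induction n with
  | zero => simp [cb]
  | succ n ih => rw [cb, h.norm_cube, ih, ← pow_mul, pow_succ]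

theorem orth_cb (h : IsJBTriple M L) (n : ℕ) {x y : M} (o1 : L x y = 0) (o2 : L y x = 0) :
    L (cb L n x) (cb L n y) = 0 ∧ L (cb L n y) (cb L n x) = 0 := by
  induction n with
  | zero => exact ⟨o1, o2⟩
  | succ n ih =>
    obtain ⟨i1, i2⟩ := orth_cube h ih.1 ih.2
    obtain ⟨j1, j2⟩ := orth_cube h i2 i1
    exact ⟨j2, j1⟩

theorem cube_sum (h : IsJBTriple M L) (F : Finset ℕ) (g : ℕ → M)
    (o : ∀ i j, i ≠ j → L (g i) (g j) = 0) :
    L (∑ i ∈ F, g i) (∑ i ∈ F, g i) (∑ i ∈ F, g i) = ∑ i ∈ F, L (g i) (g i) (g i) := by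
  rw [L_sum_left h]
  refine Finset.sum_congr rfl fun i hi => ?_
  rw [L_sum_mid h, Finset.sum_eq_single i, map_sum, Finset.sum_eq_single i]
  · intro k _ hk
    rw [h.symm, o k i hk]; rfl
  · exact fun hn => absurd hi hn
  · intro k _ hk
    rw [o i k hk.symm]; rfl
  · exact fun hn => absurd hi hn

theorem cb_sum (h : IsJBTriple M L) (n : ℕ) (F : Finset ℕ) (g : ℕ → M)
    (o : ∀ i j, i ≠ j → L (g i) (g j) = 0) :
    cb L n (∑ i ∈ F, g i) = ∑ i ∈ F, cb L n (g i) := by
  induction n with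
  | zero => rfl
  | succ n ih =>
    simp only [cb]
    rw [ih]
    exact cube_sum h F _ fun i j hij => (orth_cb h n (o i j hij) (o j i hij.symm)).1

end

theorem orth : S_ORTH.{u} := by
  intro M _ _ L h f o F r hr hf
  by_contra hlt
  rw [not_le] at hlt
  set s := ‖∑ i ∈ F, f i‖ with hs
  have key : ∀ n : ℕ, s ^ 3 ^ n ≤ F.card * r ^ 3 ^ n := by
    intro n
    rw [hs, ← norm_cb h, cb_sum h n F f o]
    calc ‖∑ i ∈ F, cb L n (f i)‖ ≤ ∑ i ∈ F, ‖cb L n (f i)‖ := norm_sum_le _ _
      _ ≤ ∑ _i ∈ F, r ^ 3 ^ n := by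
          refine Finset.sum_le_sum fun i hi => ?_
          rw [norm_cb h]
          exact pow_le_pow_left₀ (norm_nonneg _) (hf i hi) _
      _ = F.card * r ^ 3 ^ n := by rw [Finset.sum_const, nsmul_eq_mul]
  have hs0 : 0 < s := hr.trans_lt hlt
  rcases hr.eq_or_lt with h0 | h0
  · have := key 0
    rw [← h0] at this
    simp at this
    linarith
  · have h1 : 1 < s / r := (one_lt_div h0).2 hlt
    obtain ⟨m, hm⟩ := pow_unbounded_of_one_lt (F.card : ℝ) h1
    have h2 : m ≤ 3 ^ m := (Nat.lt_pow_self (by norm_num)).le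
    have h3 : (s / r) ^ m ≤ (s / r) ^ 3 ^ m := pow_le_pow_right₀ h1.le h2
    have h4 : (F.card : ℝ) < (s / r) ^ 3 ^ m := hm.trans_le h3
    rw [div_pow, lt_div_iff₀ (by positivity)] at h4
    exact absurd (key m) (not_le.2 h4)

end Pool.Agent.Y305.WN
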