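import Pool.Agent.H86R3.JB2
import Pool.Agent.H86R3.Rosenthal

/-! Statements of the jobs of project WN (measures of weak noncompactness in dual spaces
containing `c₀`, MP_4226b8_an). -/

set_option autoImplicit false

open Filter Topology Set
open scoped ENNReal NNReal
open Pool.Agent.H86R3 Pool.Agent.H86R3.Wnc Pool.Agent.H86R3.JB

namespace Pool.Agent.Y305.WN

universe u

/-- WN-TR: behaviour of the two measures under an embedding with a left inverse -/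
def S_TR : Prop :=
  ∀ (E : Type) (X : Type u) [NormedAddCommGroup E] [NormedSpace ℂ E] [NormedAddCommGroup X]
    [NormedSpace ℂ X] (T : E →L[ℂ] X) (P : X →L[ℂ] E), (∀ g, P (T g) = g) →
    ∀ A : Set E, Bornology.IsBounded A →
      wk (T '' A) ≤ (‖T‖₊ : ℝ≥0∞) * wk A ∧ deBlasi A ≤ (‖P‖₊ : ℝ≥0∞) * deBlasi (T '' A)

/-- WN-INJ: an isomorphic copy of `C(βℕ)` is complemented -/
def S_INJ : Prop :=
  ∀ (X : Type u) [NormedAddCommGroup X] [NormedSpace ℂ X] (T : C(StoneCech ℕ, ℂ) →L[ℂ] X)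
    (C : ℝ), (∀ g, ‖g‖ ≤ C * ‖T g‖) → ∃ P : X →L[ℂ] C(StoneCech ℕ, ℂ), ∀ g, P (T g) = g

/-- WN-SEQ: a dual space which contains `c₀` contains `C(βℕ)` -/
def S_SEQ : Prop :=
  ∀ (Y : Type u) [NormedAddCommGroup Y] [NormedSpace ℂ Y] (f : ℕ → StrongDual ℂ Y) (δ : ℝ),
    0 < δ → (∀ i, δ < ‖f i‖) →
    (∀ (F : Finset ℕ) (a : ℕ → ℂ), (∀ i, ‖a i‖ ≤ 1) → ‖∑ i ∈ F, a i • f i‖ ≤ 1) →
    ∃ T : C(StoneCech ℕ, ℂ) →L[ℂ] StrongDual ℂ Y, ∀ g, δ / 2 * ‖g‖ ≤ ‖T g‖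

/-- WN-ORTH: the norm of a sum of orthogonal elements of a JB*-triple -/
def S_ORTH : Prop :=
  ∀ (M : Type u) [NormedAddCommGroup M] [NormedSpace ℂ M] (L : M → M → M →L[ℂ] M),
    IsJBTriple M L → ∀ (f : ℕ → M), (∀ i j, i ≠ j → L (f i) (f j) = 0) →
    ∀ (F : Finset ℕ) (r : ℝ), 0 ≤ r → (∀ i ∈ F, ‖f i‖ ≤ r) → ‖∑ i ∈ F, f i‖ ≤ r

end Pool.Agent.Y305.WN
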